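import Pool.Agent.helper51.QS.SpecA
import Pool.Agent.helper13.PC.ASA

/-! Project qs (MP_74cfa5_ag), row WTR: elements of value zero with independent residues. -/

set_option autoImplicit false

namespace Pool.Agent.QS

open Pool.Agent.PC MvPolynomial

universe u

theorem WTR_phi {k A : Type u} [Field k] [CommRing A] [Algebra k A] {n : ℕ} (y : Fin n → A)
    (φ : A →ₐ[k] MvPowerSeries (Fin n) k) (hφ : ∀ i, φ (y i) = MvPowerSeries.X i)
    (P : MvPolynomial (Fin n) k) : φ (aeval y P) = (P : MvPowerSeries (Fin n) k) := by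
  have h : φ.comp (aeval y) = MvPolynomial.coeToMvPowerSeries.algHom (σ := Fin n) (R := k) k := by
    apply MvPolynomial.algHom_ext
    intro i
    rw [AlgHom.comp_apply, aeval_X, hφ]
    simp
  have h2 := congrArg (fun f => f P) h
  simpa using h2

theorem WTR_y {k A K : Type u} [Field k] [CommRing A] [Algebra k A] [Field K] [Algebra A K] {n : ℕ}
    (y : Fin n → A) (φ : A →ₐ[k] MvPowerSeries (Fin n) k) (hφ : ∀ i, φ (y i) = MvPowerSeries.X i)
    (w : Fin n → ℕ) (v : K → ℤ) (hv : IsW φ w v) (i : Fin n) :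
    algebraMap A K (y i) ≠ 0 ∧ v (algebraMap A K (y i)) = w i := by
  classical
  have h1 : Ge v (w i : ℕ) (algebraMap A K (y i)) := by
    rw [hv.2]
    intro α hα
    rw [hφ, MvPowerSeries.coeff_X, if_neg]
    rintro rfl
    rw [Finsupp.weight_apply, Finsupp.sum_single_index (by simp), one_smul] at hα
    exact lt_irrefl _ hα
  have h2 : ¬ Ge v (w i + 1 : ℕ) (algebraMap A K (y i)) := by
    rw [hv.2]
    intro h
    have h3 := h (Finsupp.single i 1) (by
      rw [Finsupp.weight_apply, Finsupp.sum_single_index (by simp), one_smul]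
      exact Nat.lt_succ_self _)
    rw [hφ, MvPowerSeries.coeff_X, if_pos rfl] at h3
    exact one_ne_zero h3
  have h0 : algebraMap A K (y i) ≠ 0 := fun h => h2 (Or.inl h)
  refine ⟨h0, ?_⟩
  have h4 : ((w i : ℕ) : ℤ) ≤ v (algebraMap A K (y i)) := by
    rcases h1 with h | h
    · exact absurd h h0
    · exact h
  have h5 : ¬ ((w i + 1 : ℕ) : ℤ) ≤ v (algebraMap A K (y i)) := fun h => h2 (Or.inr h)
  push_cast at h5
  omega

theorem WTR : WTR_stmt.{u} := by
  classical
  intro k A K _ _ _ _ _ _ _ _ _ n m y φ hT w v hv hex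
  obtain ⟨i0, hi0⟩ := hex
  cases n with
  | zero => exact i0.elim0
  | succ n' =>
  show ∃ a : Fin n' → K, ∀ Q : MvPolynomial (Fin n') k, Q ≠ 0 → aeval a Q ≠ 0 ∧ v (aeval a Q) = 0
  have hY := fun i => WTR_y y φ hT.1 w v hv i
  set Y : Fin (n' + 1) → K := fun i => algebraMap A K (y i) with hYdef
  have hY0 : ∀ i, Y i ≠ 0 := fun i => (hY i).1
  have hYv : ∀ i, v (Y i) = w i := fun i => (hY i).2
  refine ⟨fun j => Y (i0.succAbove j) ^ w i0 / Y i0 ^ w (i0.succAbove j), ?_⟩
  intro Q hQ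
  let s : (Fin n' →₀ ℕ) → ℕ := fun β => ∑ j, w (i0.succAbove j) * β j
  let N : ℕ := Q.support.sup s
  have hs : ∀ β ∈ Q.support, s β ≤ N := fun β hβ => Finset.le_sup hβ
  let γ : (Fin n' →₀ ℕ) → (Fin (n' + 1) →₀ ℕ) := fun β =>
    Finsupp.equivFunOnFinite.symm (i0.insertNth (N - s β) (fun j => w i0 * β j))
  have hγ0 : ∀ β, γ β i0 = N - s β := fun β => by
    simp [γ]
  have hγ1 : ∀ β j, γ β (i0.succAbove j) = w i0 * β j := fun β j => by
    simp [γ]
  have hγinj : ∀ β β', γ β = γ β' → β = β' := by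
    intro β β' h
    ext j
    have h1 := hγ1 β j
    rw [h, hγ1 β' j] at h1
    exact (Nat.eq_of_mul_eq_mul_left hi0 h1).symm
  have hγw : ∀ β ∈ Q.support, Finsupp.weight w (γ β) = w i0 * N := by
    intro β hβ
    rw [Finsupp.weight_apply, Finsupp.sum_fintype _ _ (fun i => by simp),
      Fin.sum_univ_succAbove _ i0, hγ0]
    simp only [hγ1, smul_eq_mul]
    have h1 : ∑ j, w i0 * β j * w (i0.succAbove j) = w i0 * s β := by
      rw [Finset.mul_sum]
      exact Finset.sum_congr rfl fun j _ => by ring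
    rw [h1, mul_comm (N - s β), ← mul_add, Nat.sub_add_cancel (hs β hβ)]
  let P : MvPolynomial (Fin (n' + 1)) k := ∑ β ∈ Q.support, monomial (γ β) (coeff β Q)
  have hPc : ∀ α, coeff α P = ∑ β ∈ Q.support, if γ β = α then coeff β Q else 0 := by
    intro α
    show coeff α (∑ β ∈ Q.support, monomial (γ β) (coeff β Q)) = _
    rw [coeff_sum]
    exact Finset.sum_congr rfl fun β _ => by rw [coeff_monomial]
  have hφP := WTR_phi y φ hT.1 P
  have hge : Ge v (w i0 * N : ℕ) (algebraMap A K (aeval y P)) := by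
    rw [hv.2]
    intro α hα
    rw [hφP, MvPolynomial.coeff_coe, hPc]
    refine Finset.sum_eq_zero fun β hβ => if_neg ?_
    rintro rfl
    rw [hγw β hβ] at hα
    exact lt_irrefl _ hα
  have hnge : ¬ Ge v (w i0 * N + 1 : ℕ) (algebraMap A K (aeval y P)) := by
    rw [hv.2]
    intro h
    obtain ⟨β, hβ⟩ := MvPolynomial.ne_zero_iff.1 hQ
    have hβs : β ∈ Q.support := mem_support_iff.2 hβ
    have h3 := h (γ β) (by rw [hγw β hβs]; exact Nat.lt_succ_self _)
    rw [hφP, MvPolynomial.coeff_coe, hPc, Finset.sum_eq_single β] at h3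
    · rw [if_pos rfl] at h3
      exact hβ h3
    · intro β' _ hne
      exact if_neg fun h4 => hne (hγinj _ _ h4)
    · intro h4
      exact absurd hβs h4
  have h0 : algebraMap A K (aeval y P) ≠ 0 := fun h => hnge (Or.inl h)
  have hval : v (algebraMap A K (aeval y P)) = (w i0 * N : ℕ) := by
    have h4 : ((w i0 * N : ℕ) : ℤ) ≤ v (algebraMap A K (aeval y P)) := by
      rcases hge with h | h
      · exact absurd h h0
      · exact h
    have h5 : ¬ ((w i0 * N + 1 : ℕ) : ℤ) ≤ v (algebraMap A K (aeval y P)) :=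
      fun h => hnge (Or.inr h)
    rw [Nat.cast_add, Nat.cast_one] at h5
    omega
  have hkey : Y i0 ^ N * aeval (fun j => Y (i0.succAbove j) ^ w i0 / Y i0 ^ w (i0.succAbove j)) Q =
      algebraMap A K (aeval y P) := by
    have h1 : algebraMap A K (aeval y P) = ∑ β ∈ Q.support, algebraMap k K (coeff β Q) *
        ∏ i, Y i ^ γ β i := by
      show algebraMap A K (aeval y (∑ β ∈ Q.support, monomial (γ β) (coeff β Q))) = _
      rw [map_sum, map_sum]
      refine Finset.sum_congr rfl fun β _ => ?_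
      rw [aeval_monomial, map_mul, ← IsScalarTower.algebraMap_apply, Finsupp.prod_fintype _ _
        (fun i => pow_zero _), map_prod]
      congr 1
      exact Finset.prod_congr rfl fun i _ => by rw [map_pow]
    rw [h1, aeval_def, eval₂_eq', Finset.mul_sum]
    refine Finset.sum_congr rfl fun β hβ => ?_
    rw [Fin.prod_univ_succAbove _ i0, hγ0]
    simp only [hγ1]
    have h2 : ∏ j, (Y (i0.succAbove j) ^ w i0 / Y i0 ^ w (i0.succAbove j)) ^ β j =
        (∏ j, Y (i0.succAbove j) ^ (w i0 * β j)) / Y i0 ^ s β := by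
      show _ = _ / Y i0 ^ (∑ j, w (i0.succAbove j) * β j)
      rw [← Finset.prod_pow_eq_pow_sum, ← Finset.prod_div_distrib]
      refine Finset.prod_congr rfl fun j _ => ?_
      rw [div_pow, ← pow_mul, ← pow_mul]
    rw [h2]
    have h3 : Y i0 ^ N = Y i0 ^ (N - s β) * Y i0 ^ s β := by
      rw [← pow_add, Nat.sub_add_cancel (hs β hβ)]
    have h4 : Y i0 ^ s β ≠ 0 := pow_ne_zero _ (hY0 i0)
    rw [h3]
    field_simp
  have hDV := hv.1
  have hYN : Y i0 ^ N ≠ 0 := pow_ne_zero _ (hY0 i0)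
  have hne : aeval (fun j => Y (i0.succAbove j) ^ w i0 / Y i0 ^ w (i0.succAbove j)) Q ≠ 0 := by
    intro h
    rw [h, mul_zero] at hkey
    exact h0 hkey.symm
  refine ⟨hne, ?_⟩
  have h6 := hDV.mul _ _ hYN hne
  rw [hkey, hval, ASA_pow hDV (hY0 i0), hYv] at h6
  push_cast at h6
  linarith [mul_comm (N : ℤ) (w i0 : ℤ)]

end Pool.Agent.QS
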