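import Pool.Agent.helper51.QS.SpecA
import Pool.Agent.helper13.PC.ASA
import Pool.Agent.helper83.QS.WTR

/-! Project qs (MP_74cfa5_ag), row JMX: the jump of an automorphism. -/

set_option autoImplicit false

namespace Pool.Agent.QS

open Pool.Agent.PC MvPolynomial

universe u

theorem JMX_weight {n : ℕ} (w : Fin n → ℕ) (hw : ∀ i, n ≤ w i) (α : Fin n →₀ ℕ) :
    n * α.degree ≤ Finsupp.weight w α := by
  rw [Finsupp.weight_apply, Finsupp.sum_fintype _ _ (fun i => by simp),
    Finsupp.degree_eq_sum, Finset.mul_sum]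
  refine Finset.sum_le_sum fun i _ => ?_
  rw [smul_eq_mul, mul_comm]
  exact Nat.mul_le_mul_left _ (hw i)

theorem JMX : JMX_stmt.{u} := by
  classical
  intro k A K _ _ _ _ _ _ _ _ n m hm y φ hT w v hw hv σ hσm hσ hne
  have hinj : Function.Injective (algebraMap A K) := IsFractionRing.injective A K
  -- step 1
  have h1 : ∀ i, Ge v (w i + 1 : ℕ) (algebraMap A K (σ (y i) - y i)) := by
    intro i
    obtain ⟨c, hc0, hc⟩ := hσ i
    rw [hv.2]
    intro α hα
    have hb := (hT.2 2 _).1 hc
    have hsplit : σ (y i) - y i = ∑ l, c l • y l + (σ (y i) - y i - ∑ l, c l • y l) := by abel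
    rw [hsplit, map_add, map_add]
    have hdeg : α.degree < 2 := by
      by_contra hcon
      push Not at hcon
      have h2 := JMX_weight w (fun i => by rw [hw]; exact Nat.le_add_right _ _) α
      have h3 : n * 2 ≤ n * α.degree := Nat.mul_le_mul_left _ hcon
      rw [hw] at hα
      have := i.2
      omega
    rw [hb α hdeg, add_zero, map_sum, map_sum]
    refine Finset.sum_eq_zero fun l _ => ?_
    rw [map_smul, hT.1, map_smul, MvPowerSeries.coeff_X, smul_eq_mul]
    split_ifs with hl
    · subst hl
      rw [Finsupp.weight_apply, Finsupp.sum_single_index (by simp), one_smul, hw, hw] at hα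
      rw [hc0 l (by rw [Fin.le_def]; omega), zero_mul]
    · rw [mul_zero]
  -- step 2
  have h2 : ∃ i, σ (y i) - y i ≠ 0 := by
    by_contra hcon
    push Not at hcon
    obtain ⟨a, ha⟩ := hne
    apply ha
    have hfix : ∀ P : MvPolynomial (Fin n) k, σ (aeval y P) = aeval y P := by
      intro P
      have h3 : σ.comp (aeval y) = aeval y := by
        apply MvPolynomial.algHom_ext
        intro i
        rw [AlgHom.comp_apply, aeval_X]
        exact sub_eq_zero.1 (hcon i)
      exact congrArg (fun f => f P) h3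
    have hpow : ∀ N : ℕ, σ a - a ∈ m ^ N := by
      intro N
      have h4 : a - aeval y (MvPowerSeries.truncTotal N (φ a)) ∈ m ^ N := by
        rw [hT.2]
        intro α hα
        rw [map_sub, WTR_phi y φ hT.1, map_sub, MvPolynomial.coeff_coe,
          MvPowerSeries.coeff_truncTotal _ hα, sub_self]
      have h5 : σ (a - aeval y (MvPowerSeries.truncTotal N (φ a))) ∈ m ^ N := by
        have h6 : (m ^ N).map (σ : A →+* A) ≤ m ^ N := by
          rw [Ideal.map_pow]
          exact Ideal.pow_right_mono (Ideal.map_le_iff_le_comap.2 fun x hx => hσm x hx) N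
        exact h6 (Ideal.mem_map_of_mem (σ : A →+* A) h4)
      have h7 : σ a - a = σ (a - aeval y (MvPowerSeries.truncTotal N (φ a))) -
          (a - aeval y (MvPowerSeries.truncTotal N (φ a))) := by
        rw [map_sub, hfix]
        ring
      rw [h7]
      exact Ideal.sub_mem _ h5 h4
    have h8 : σ a - a ∈ (⨅ i : ℕ, m ^ i) := by
      rw [Ideal.mem_iInf]
      exact hpow
    rw [Ideal.iInf_pow_eq_bot_of_isDomain m hm.ne_top, Ideal.mem_bot] at h8
    exact sub_eq_zero.1 h8
  -- step 3
  obtain ⟨i₁, hi₁⟩ := h2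
  obtain ⟨i, hi, himin⟩ := Finset.exists_min_image
    (Finset.univ.filter fun i => σ (y i) - y i ≠ 0)
    (fun i => v (algebraMap A K (σ (y i) - y i)) - w i) ⟨i₁, by simpa using hi₁⟩
  have hi0 : σ (y i) - y i ≠ 0 := (Finset.mem_filter.1 hi).2
  have hiK : algebraMap A K (σ (y i) - y i) ≠ 0 := fun h =>
    hi0 (hinj (by rw [h, map_zero]))
  refine ⟨v (algebraMap A K (σ (y i) - y i)) - w i, ?_, ?_, i, hi0, by ring⟩
  · rcases h1 i with h | h
    · exact absurd h hiK
    · rw [Nat.cast_add, Nat.cast_one] at h
      omega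
  · intro l
    by_cases hl : σ (y l) - y l = 0
    · left
      rw [hl, map_zero]
    · right
      have h3 : v (algebraMap A K (σ (y i) - y i)) - w i ≤
          v (algebraMap A K (σ (y l) - y l)) - w l :=
        himin l (Finset.mem_filter.2 ⟨Finset.mem_univ l, hl⟩)
      omega

end Pool.Agent.QS
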